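import Pool.Agent.Helper93.TH3.StD

/-!
# Project TH3, module LIFP: lifting solutions of the relations to the integers
-/

set_option autoImplicit false

namespace Pool.Agent.Helper99.TH3.LifpM

open Pool.Agent.Helper78.W3 (tr Fn3 S3Trm)
open Pool.Agent.Helper93.TH3 (RelT kT kT' dsT dsT' qT solT TSol TLifp)

private abbrev Pt (r s : ℕ) : Type := ZMod (3 ^ r) × ZMod (3 ^ s)

private def mu {r s : ℕ} (a b c d : ℤ) (p : Pt r s) : Pt r s :=
  tr a b c d (fun x y => ((x, y) : Pt r s)) p.1 p.2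

private theorem mu_mul (hTrm : S3Trm) {r s : ℕ} {a b c d a' b' c' d' : ℤ} (h1 : ¬ 3 ∣ a)
    (h2 : ¬ 3 ∣ d) (h3 : ¬ 3 ∣ a') (h4 : ¬ 3 ∣ d') (p : Pt r s) :
    mu a' b' c' d' (mu a b c d p) =
      mu (a * a' + 9 * b * c') (a * b' + b * d') (c * a' + d * c') (9 * c * b' + d * d') p := by
  have h := congrFun (congrFun ((hTrm (Pt r s) r s (fun x y => (x, y))).1 a b c d a' b' c' d'
    h1 h2 h3 h4) p.1) p.2
  exact h

private theorem mu_one (hTrm : S3Trm) {r s : ℕ} (p : Pt r s) : mu 1 0 0 1 p = p := by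
  have h := congrFun (congrFun (hTrm (Pt r s) r s (fun x y => (x, y))).2.1 p.1) p.2
  exact h

private theorem mu_scl (hTrm : S3Trm) {r s : ℕ} (k a b c d : ℤ) (hk : ¬ 3 ∣ k) (ha : ¬ 3 ∣ a)
    (hd : ¬ 3 ∣ d) (p : Pt r s) : mu (k * a) (k * b) (k * c) (k * d) p = mu a b c d p := by
  have h := congrFun (congrFun ((hTrm (Pt r s) r s (fun x y => (x, y))).2.2 k a b c d
    hk ha hd) p.1) p.2
  exact h

private theorem mu_scl1 (hTrm : S3Trm) {r s : ℕ} (k : ℤ) (hk : ¬ 3 ∣ k) (p : Pt r s) :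
    mu k 0 0 k p = p := by
  have h := mu_scl hTrm k 1 0 0 1 hk (by norm_num) (by norm_num) p
  rw [mul_one, mul_zero] at h
  rw [h, mu_one hTrm]

private theorem mu_inv (hTrm : S3Trm) {r s : ℕ} {a b c d : ℤ} (h1 : ¬ 3 ∣ a) (h2 : ¬ 3 ∣ d)
    (h : ¬ 3 ∣ a * d - 9 * b * c) (p : Pt r s) : mu d (-b) (-c) a (mu a b c d p) = p := by
  rw [mu_mul hTrm h1 h2 h2 h1]
  have e1 : a * d + 9 * b * -c = a * d - 9 * b * c := by ring
  have e2 : a * -b + b * a = 0 := by ring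
  have e3 : c * d + d * -c = 0 := by ring
  have e4 : 9 * c * -b + d * a = a * d - 9 * b * c := by ring
  rw [e1, e2, e3, e4, mu_scl1 hTrm _ h]

private theorem mu_bij (hTrm : S3Trm) {r s : ℕ} {a b c d : ℤ} (h1 : ¬ 3 ∣ a) (h2 : ¬ 3 ∣ d)
    (h : ¬ 3 ∣ a * d - 9 * b * c) :
    Function.Bijective (mu a b c d : Pt r s → Pt r s) := by
  refine Function.bijective_iff_has_inverse.2 ⟨mu d (-b) (-c) a, fun p => mu_inv hTrm h1 h2 h p,
    fun p => ?_⟩
  have := mu_inv hTrm (r := r) (s := s) (a := d) (b := -b) (c := -c) (d := a) h2 h1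
    (by intro h'; apply h; have e : a * d - 9 * b * c = d * a - 9 * -b * -c := by ring
        rw [e]; exact h') p
  rw [neg_neg, neg_neg] at this
  exact this

private instance fin_pt (r s : ℕ) : Fintype (Pt r s) := by
  have : NeZero (3 ^ r) := ⟨by positivity⟩
  have : NeZero (3 ^ s) := ⟨by positivity⟩
  infer_instance

private def mA {r s : ℕ} : Pt r s → Pt r s := mu 1 1 0 1
private def mS {r s : ℕ} : Pt r s → Pt r s := mu 4 (-1) 2 (-4)
private def mS' {r s : ℕ} : Pt r s → Pt r s := mu 4 1 (-2) (-4)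
private def mG {r s : ℕ} : Pt r s → Pt r s := mu 8 (-1) 2 (-2)
private def mG' {r s : ℕ} : Pt r s → Pt r s := mu 10 1 2 2
private def mB {r s : ℕ} : Pt r s → Pt r s := mu 1 0 2 1

private theorem bA (hTrm : S3Trm) {r s : ℕ} : Function.Bijective (mA : Pt r s → Pt r s) :=
  mu_bij hTrm (by norm_num) (by norm_num) (by norm_num)
private theorem bS (hTrm : S3Trm) {r s : ℕ} : Function.Bijective (mS : Pt r s → Pt r s) :=
  mu_bij hTrm (by norm_num) (by norm_num) (by norm_num)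
private theorem bS' (hTrm : S3Trm) {r s : ℕ} : Function.Bijective (mS' : Pt r s → Pt r s) :=
  mu_bij hTrm (by norm_num) (by norm_num) (by norm_num)
private theorem bG (hTrm : S3Trm) {r s : ℕ} : Function.Bijective (mG : Pt r s → Pt r s) :=
  mu_bij hTrm (by norm_num) (by norm_num) (by norm_num)
private theorem bG' (hTrm : S3Trm) {r s : ℕ} : Function.Bijective (mG' : Pt r s → Pt r s) :=
  mu_bij hTrm (by norm_num) (by norm_num) (by norm_num)

private theorem mBG (hTrm : S3Trm) {r s : ℕ} (p : Pt r s) : mB (mG p) = mG' p := by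
  have h := mu_scl hTrm (-1) 10 1 2 2 (by norm_num) (by norm_num) (by norm_num) p
  unfold mB mG mG'
  rw [mu_mul hTrm (by norm_num) (by norm_num) (by norm_num) (by norm_num), ← h]
  norm_num

/-- the defect of the relation -/
private def cob (r s : ℕ) : (Fin 5 → Pt r s → ℤ) →+ (Pt r s → ℤ) where
  toFun H := fun p => -H 1 p + H 2 (mA p) -
    (H 0 (mG p) - H 1 (mG p) - (H 3 (mG p) - H 3 (mS (mG p)))) +
    (H 0 (mG' p) - H 2 (mG' p) - (H 4 (mG' p) - H 4 (mS' (mG' p))))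
  map_zero' := by funext p; simp
  map_add' H K := by funext p; simp only [Pi.add_apply]; ring

private noncomputable def dl {r s : ℕ} (p : Pt r s) : Pt r s → ℤ := by
  classical exact Pi.single p 1

private theorem dl_app {r s : ℕ} (p q : Pt r s) [Decidable (q = p)] :
    dl p q = if q = p then 1 else 0 := by
  classical
  unfold dl
  rw [Pi.single_apply]
  congr

private def Eqp {r s : ℕ} (p q : Pt r s) : Prop := dl p - dl q ∈ (cob r s).range

private theorem Eqp.rfl' {r s : ℕ} (p : Pt r s) : Eqp p p := by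
  unfold Eqp; rw [sub_self]; exact zero_mem _

private theorem Eqp.sym {r s : ℕ} {p q : Pt r s} (h : Eqp p q) : Eqp q p := by
  unfold Eqp at *; have := neg_mem h; rwa [neg_sub] at this

private theorem Eqp.trs {r s : ℕ} {p q t : Pt r s} (h : Eqp p q) (h' : Eqp q t) : Eqp p t := by
  unfold Eqp at *; have := add_mem h h'; rwa [sub_add_sub_cancel] at this

private theorem dl_inj {r s : ℕ} {f : Pt r s → Pt r s} (hf : Function.Injective f) (p q : Pt r s) :
    dl (f p) (f q) = dl p q := by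
  classical
  rw [dl_app, dl_app]
  simp [hf.eq_iff]

private theorem eG (hTrm : S3Trm) {r s : ℕ} (p : Pt r s) : Eqp (mG p) p := by
  refine ⟨![0, -dl (mG p), 0, 0, 0], ?_⟩
  funext q
  simp [cob, dl_inj (bG hTrm).1 p q]

private theorem e0 (hTrm : S3Trm) {r s : ℕ} (p p' : Pt r s) (h : mG' p' = mG p) : Eqp p' p := by
  refine ⟨![dl (mG p), 0, 0, 0, 0], ?_⟩
  funext q
  have h1 := dl_inj (bG hTrm).1 p q
  have h2 := dl_inj (bG' hTrm).1 p' q
  rw [h] at h2
  simp [cob, h1, h2]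
  ring

private theorem e2 (hTrm : S3Trm) {r s : ℕ} (p p' : Pt r s) (h : mG' p' = mA p) : Eqp p p' := by
  refine ⟨![0, 0, dl (mA p), 0, 0], ?_⟩
  funext q
  have h1 := dl_inj (bA hTrm).1 p q
  have h2 := dl_inj (bG' hTrm).1 p' q
  rw [h] at h2
  simp [cob, h1, h2]
  ring

private theorem eG' (hTrm : S3Trm) {r s : ℕ} (p' : Pt r s) : Eqp (mG' p') p' := by
  obtain ⟨p, hp⟩ := (bG hTrm (r := r) (s := s)).2 (mG' p')
  rw [← hp]
  exact (eG hTrm p).trs (e0 hTrm p p' hp.symm).sym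

private theorem eA (hTrm : S3Trm) {r s : ℕ} (p : Pt r s) : Eqp (mA p) p := by
  obtain ⟨p', hp⟩ := (bG' hTrm (r := r) (s := s)).2 (mA p)
  rw [← hp]
  exact (eG' hTrm p').trs (e2 hTrm p p' hp).sym

private theorem eB (hTrm : S3Trm) {r s : ℕ} (p : Pt r s) : Eqp (mB p) p := by
  obtain ⟨q, rfl⟩ := (bG hTrm (r := r) (s := s)).2 p
  rw [mBG hTrm]
  exact (eG' hTrm q).trs (eG hTrm q).sym

private theorem eqp_y0 (hTrm : S3Trm) {r s : ℕ} : ∀ (n : ℕ),
    Eqp ((0, ((2 * n : ℕ) : ZMod (3 ^ s))) : Pt r s) (0, 0) := by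
  intro n
  induction n with
  | zero => rw [mul_zero, Nat.cast_zero]; exact Eqp.rfl' _
  | succ n ih =>
    have h := eB hTrm ((0, ((2 * n : ℕ) : ZMod (3 ^ s))) : Pt r s)
    have e : mB ((0, ((2 * n : ℕ) : ZMod (3 ^ s))) : Pt r s) =
        (0, ((2 * (n + 1) : ℕ) : ZMod (3 ^ s))) := by
      have h1 : ((1 : ZMod (3 ^ s)))⁻¹ = 1 := ZMod.inv_eq_of_mul_eq_one _ _ _ (by ring)
      simp [mB, mu, tr, h1]
      ring
    rw [e] at h
    exact h.trs ih

private theorem eqp_y (hTrm : S3Trm) {r s : ℕ} (y : ZMod (3 ^ s)) :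
    Eqp ((0, y) : Pt r s) (0, 0) := by
  have : NeZero (3 ^ s) := ⟨by positivity⟩
  have hu : IsUnit ((2 : ℕ) : ZMod (3 ^ s)) := by
    rw [ZMod.isUnit_iff_coprime]
    exact Nat.Coprime.pow_right s (by norm_num)
  obtain ⟨u, hu⟩ := hu
  have h := eqp_y0 hTrm (r := r) (s := s) (((u⁻¹ : (ZMod (3 ^ s))ˣ) : ZMod (3 ^ s)) * y).val
  have e : ((2 * (((u⁻¹ : (ZMod (3 ^ s))ˣ) : ZMod (3 ^ s)) * y).val : ℕ) : ZMod (3 ^ s)) = y := by
    rw [Nat.cast_mul, ZMod.natCast_zmod_val, ← hu, ← mul_assoc, Units.mul_inv, one_mul]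
  rw [e] at h
  exact h

private theorem eqp_x (hTrm : S3Trm) {r s : ℕ} : ∀ (n : ℕ) (x : ZMod (3 ^ r)) (y : ZMod (3 ^ s)),
    x + n = 0 → Eqp ((x, y) : Pt r s) (0, 0) := by
  intro n
  induction n with
  | zero =>
    intro x y h
    rw [Nat.cast_zero, add_zero] at h
    subst h
    exact eqp_y hTrm (r := r) (s := s) y
  | succ n ih =>
    intro x y h
    have h1 := eA hTrm ((x, y) : Pt r s)
    refine h1.sym.trs ?_
    have h2 : (mA ((x, y) : Pt r s)).1 = x + 1 := by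
      have h1 : ((1 : ZMod (3 ^ r)))⁻¹ = 1 := ZMod.inv_eq_of_mul_eq_one _ _ _ (by ring)
      simp [mA, mu, tr, h1, add_comm]
    have h3 : mA ((x, y) : Pt r s) = (x + 1, (mA ((x, y) : Pt r s)).2) := by
      rw [← h2]
    rw [h3]
    apply ih
    rw [← h]
    push_cast
    ring

private theorem eqp_all (hTrm : S3Trm) {r s : ℕ} (p : Pt r s) : Eqp p (0, 0) := by
  have : NeZero (3 ^ r) := ⟨by positivity⟩
  exact eqp_x hTrm (-p.1).val p.1 p.2 (by rw [ZMod.natCast_zmod_val]; ring)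

private theorem mem_of_sum (hTrm : S3Trm) {r s : ℕ} (E : Pt r s → ℤ) (hE : ∑ p, E p = 0) :
    E ∈ (cob r s).range := by
  classical
  have h1 : E = ∑ p, E p • (dl p - dl (0, 0)) := by
    have h2 : ∑ p, E p • (dl p - dl ((0, 0) : Pt r s)) =
        ∑ p, E p • dl p - (∑ p, E p) • dl ((0, 0) : Pt r s) := by
      rw [Finset.sum_smul, ← Finset.sum_sub_distrib]
      exact Finset.sum_congr rfl fun p _ => smul_sub _ _ _
    rw [h2, hE, zero_smul, sub_zero]
    funext q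
    rw [Finset.sum_apply]
    simp [dl_app]
  rw [h1]
  exact sum_mem fun p _ => zsmul_mem (eqp_all hTrm p) _

private theorem sum_cob (hTrm : S3Trm) {r s : ℕ} (H : Fin 5 → Pt r s → ℤ) :
    ∑ p, cob r s H p = 0 := by
  have hA2 := (bA hTrm (r := r) (s := s)).sum_comp (H 2)
  have hG0 := (bG hTrm (r := r) (s := s)).sum_comp (H 0)
  have hG1 := (bG hTrm (r := r) (s := s)).sum_comp (H 1)
  have hG3 := (bG hTrm (r := r) (s := s)).sum_comp (H 3)
  have hS3 := ((bS hTrm (r := r) (s := s)).comp (bG hTrm)).sum_comp (H 3)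
  have hG0' := (bG' hTrm (r := r) (s := s)).sum_comp (H 0)
  have hG2' := (bG' hTrm (r := r) (s := s)).sum_comp (H 2)
  have hG4' := (bG' hTrm (r := r) (s := s)).sum_comp (H 4)
  have hS4' := ((bS' hTrm (r := r) (s := s)).comp (bG' hTrm)).sum_comp (H 4)
  simp only [Function.comp_apply] at hS3 hS4'
  show ∑ p, (-H 1 p + H 2 (mA p) -
    (H 0 (mG p) - H 1 (mG p) - (H 3 (mG p) - H 3 (mS (mG p)))) +
    (H 0 (mG' p) - H 2 (mG' p) - (H 4 (mG' p) - H 4 (mS' (mG' p))))) = 0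
  simp only [Finset.sum_sub_distrib, Finset.sum_add_distrib, Finset.sum_neg_distrib]
  rw [hA2, hG0, hG1, hG3, hS3, hG0', hG2', hG4', hS4']
  ring

theorem hLifp (hm : S3Trm) (hs : TSol) : TLifp := by
  intro r s f hf
  obtain ⟨hf1, hf2, hf3⟩ := hf
  let kf : Pt r s → ZMod 3 := fun p => f 0 p.1 p.2 - f 1 p.1 p.2 - f 3 p.1 p.2
  let kf' : Pt r s → ZMod 3 := fun p => f 0 p.1 p.2 - f 2 p.1 p.2 - f 4 p.1 p.2
  let L : Fin 5 → Pt r s → ℤ :=
    ![fun p => ((f 0 p.1 p.2).val : ℤ), fun p => ((f 1 p.1 p.2).val : ℤ),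
      fun p => ((f 2 p.1 p.2).val : ℤ), fun p => ((-kf p).val : ℤ), fun p => ((-kf' p).val : ℤ)]
  have hL0 : ∀ p, ((L 0 p : ℤ) : ZMod 3) = f 0 p.1 p.2 := by
    intro p
    show ((((f 0 p.1 p.2).val : ℤ)) : ZMod 3) = _
    push_cast
    exact ZMod.natCast_zmod_val _
  have hL1 : ∀ p, ((L 1 p : ℤ) : ZMod 3) = f 1 p.1 p.2 := by
    intro p
    show ((((f 1 p.1 p.2).val : ℤ)) : ZMod 3) = _
    push_cast
    exact ZMod.natCast_zmod_val _
  have hL2 : ∀ p, ((L 2 p : ℤ) : ZMod 3) = f 2 p.1 p.2 := by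
    intro p
    show ((((f 2 p.1 p.2).val : ℤ)) : ZMod 3) = _
    push_cast
    exact ZMod.natCast_zmod_val _
  have hL3 : ∀ p, ((L 3 p : ℤ) : ZMod 3) = -kf p := by
    intro p
    show ((((-kf p).val : ℤ)) : ZMod 3) = _
    push_cast
    exact ZMod.natCast_zmod_val _
  have hL4 : ∀ p, ((L 4 p : ℤ) : ZMod 3) = -kf' p := by
    intro p
    show ((((-kf' p).val : ℤ)) : ZMod 3) = _
    push_cast
    exact ZMod.natCast_zmod_val _
  have h3 : (3 : ZMod 3) = 0 := by decide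
  have q3 : ∀ p : Pt r s, -kf p - -kf (mS p) = kf p := by
    intro p
    have h := hf1 p.1 p.2
    have h' : kf p + kf (mS p) = 0 := h
    linear_combination h' - kf p * h3
  have q4 : ∀ p : Pt r s, -kf' p - -kf' (mS' p) = kf' p := by
    intro p
    have h := hf2 p.1 p.2
    have h' : kf' p + kf' (mS' p) = 0 := h
    linear_combination h' - kf' p * h3
  have hdv : ∀ p, (3 : ℤ) ∣ cob r s L p := by
    intro p
    apply (ZMod.intCast_zmod_eq_zero_iff_dvd _ 3).1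
    show ((-L 1 p + L 2 (mA p) -
      (L 0 (mG p) - L 1 (mG p) - (L 3 (mG p) - L 3 (mS (mG p)))) +
      (L 0 (mG' p) - L 2 (mG' p) - (L 4 (mG' p) - L 4 (mS' (mG' p)))) : ℤ) : ZMod 3) = 0
    push_cast
    rw [hL0, hL0, hL1, hL1, hL2, hL2, hL3, hL3, hL4, hL4, q3, q4]
    have h := hf3 p.1 p.2
    have h' : -f 1 p.1 p.2 + f 2 (mA p).1 (mA p).2 - f 3 (mG p).1 (mG p).2 +
      f 4 (mG' p).1 (mG' p).2 = 0 := h
    show -f 1 p.1 p.2 + f 2 (mA p).1 (mA p).2 - (f 0 (mG p).1 (mG p).2 - f 1 (mG p).1 (mG p).2 -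
      (f 0 (mG p).1 (mG p).2 - f 1 (mG p).1 (mG p).2 - f 3 (mG p).1 (mG p).2)) +
      (f 0 (mG' p).1 (mG' p).2 - f 2 (mG' p).1 (mG' p).2 -
      (f 0 (mG' p).1 (mG' p).2 - f 2 (mG' p).1 (mG' p).2 - f 4 (mG' p).1 (mG' p).2)) = 0
    linear_combination h'
  choose D hD using hdv
  have hsum : ∑ p, D p = 0 := by
    have h := sum_cob hm L
    rw [Finset.sum_congr rfl fun p _ => hD p, ← Finset.mul_sum] at h
    omega
  obtain ⟨H, hH⟩ := mem_of_sum hm D hsum
  let F : Fin 5 → Pt r s → ℤ := fun i p => L i p - 3 * H i p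
  have hF : ∀ p, -F 1 p + F 2 (mA p) -
      (F 0 (mG p) - F 1 (mG p) - (F 3 (mG p) - F 3 (mS (mG p)))) +
      (F 0 (mG' p) - F 2 (mG' p) - (F 4 (mG' p) - F 4 (mS' (mG' p)))) = 0 := by
    intro p
    have h1 := hD p
    have h2 := congrFun hH p
    have e1 : cob r s L p = -L 1 p + L 2 (mA p) -
      (L 0 (mG p) - L 1 (mG p) - (L 3 (mG p) - L 3 (mS (mG p)))) +
      (L 0 (mG' p) - L 2 (mG' p) - (L 4 (mG' p) - L 4 (mS' (mG' p)))) := rfl
    have e2 : cob r s H p = -H 1 p + H 2 (mA p) -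
      (H 0 (mG p) - H 1 (mG p) - (H 3 (mG p) - H 3 (mS (mG p)))) +
      (H 0 (mG' p) - H 2 (mG' p) - (H 4 (mG' p) - H 4 (mS' (mG' p)))) := rfl
    rw [e1] at h1
    rw [e2] at h2
    simp only [F]
    linear_combination h1 - 3 * h2
  have hR := hs ℤ _ r s (fun x y => F 0 (x, y)) (fun x y => F 1 (x, y)) (fun x y => F 2 (x, y))
    (fun x y => F 3 (x, y)) (fun x y => F 4 (x, y)) (fun x y => hF (x, y))
  refine ⟨_, hR, ?_⟩
  intro i x y
  fin_cases i
  · show ((L 0 (x, y) - 3 * H 0 (x, y) : ℤ) : ZMod 3) = f 0 x y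
    push_cast
    rw [hL0, h3, zero_mul, sub_zero]
  · show ((L 1 (x, y) - 3 * H 1 (x, y) : ℤ) : ZMod 3) = f 1 x y
    push_cast
    rw [hL1, h3, zero_mul, sub_zero]
  · show ((L 2 (x, y) - 3 * H 2 (x, y) : ℤ) : ZMod 3) = f 2 x y
    push_cast
    rw [hL2, h3, zero_mul, sub_zero]
  · show (((L 0 (x, y) - 3 * H 0 (x, y)) - (L 1 (x, y) - 3 * H 1 (x, y)) -
      ((L 3 (x, y) - 3 * H 3 (x, y)) - (L 3 (mS (x, y)) - 3 * H 3 (mS (x, y)))) : ℤ) :
      ZMod 3) = f 3 x y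
    push_cast
    rw [hL0, hL1, hL3, hL3, h3]
    have h := q3 (x, y)
    have h' : kf (x, y) = f 0 x y - f 1 x y - f 3 x y := rfl
    have e0 : f 0 (x, y).1 (x, y).2 = f 0 x y := rfl
    have e1 : f 1 (x, y).1 (x, y).2 = f 1 x y := rfl
    rw [e0, e1]
    linear_combination -h - h'
  · show (((L 0 (x, y) - 3 * H 0 (x, y)) - (L 2 (x, y) - 3 * H 2 (x, y)) -
      ((L 4 (x, y) - 3 * H 4 (x, y)) - (L 4 (mS' (x, y)) - 3 * H 4 (mS' (x, y)))) : ℤ) :
      ZMod 3) = f 4 x y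
    push_cast
    rw [hL0, hL2, hL4, hL4, h3]
    have h := q4 (x, y)
    have h' : kf' (x, y) = f 0 x y - f 2 x y - f 4 x y := rfl
    have e0 : f 0 (x, y).1 (x, y).2 = f 0 x y := rfl
    have e1 : f 2 (x, y).1 (x, y).2 = f 2 x y := rfl
    rw [e0, e1]
    linear_combination -h - h'

end Pool.Agent.Helper99.TH3.LifpM

namespace Pool.Agent.Helper99.TH3

open Pool.Agent.Helper78.W3 (S3Trm)
open Pool.Agent.Helper93.TH3 (TSol TLifp)

theorem hLifp (ht : S3Trm) (hs : TSol) : TLifp := LifpM.hLifp ht hs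

end Pool.Agent.Helper99.TH3
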